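import Pool.Agent.Lib.MP_c7b5d6_nt.Defs

/-!
# Canonical heights

`T` is a set with a height function `h : T → ℝ`, `f : T → T` a map with `h (f x) = δ * h x + O(1)`,
`δ > 1`. The canonical height of `x` is the unique real number `A` such that
`h (f^k x) = δ^k * A + O(1)`.
-/

set_option autoImplicit false

namespace Pool.Agent.Lib.MP_c7b5d6_nt

variable {T : Type*} {h : T → ℝ}

/-- `A` is the canonical height of `x` -/
def IsCan (h : T → ℝ) (f : T → T) (δ : ℝ) (x : T) (A : ℝ) : Prop :=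
  ∃ C, ∀ k, |h (f^[k] x) - δ ^ k * A| ≤ C

theorem IsCan.unique {f : T → T} {δ : ℝ} (hδ : 1 < δ) {x : T} {A B : ℝ}
    (hA : IsCan h f δ x A) (hB : IsCan h f δ x B) : A = B := by
  obtain ⟨C, hC⟩ := hA
  obtain ⟨D, hD⟩ := hB
  by_contra hne
  have hpos : 0 < |A - B| := abs_pos.2 (sub_ne_zero.2 hne)
  obtain ⟨k, hk⟩ := pow_unbounded_of_one_lt ((C + D) / |A - B|) hδ
  rw [div_lt_iff₀ hpos] at hk
  have h1 : δ ^ k * |A - B| ≤ C + D := by
    have e : δ ^ k * |A - B| = |δ ^ k * A - δ ^ k * B| := by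
      rw [← mul_sub, abs_mul, abs_of_pos (by positivity : (0 : ℝ) < δ ^ k)]
    rw [e]
    have e2 : δ ^ k * A - δ ^ k * B =
        (h (f^[k] x) - δ ^ k * B) - (h (f^[k] x) - δ ^ k * A) := by ring
    rw [e2]
    refine (abs_sub _ _).trans ?_
    rw [add_comm C D]
    exact add_le_add (hD k) (hC k)
  linarith

/-- existence of the canonical height, with a uniform constant -/
theorem exists_can {f : T → T} {δ c : ℝ} (hδ : 2 ≤ δ) (hf : ∀ x, |h (f x) - δ * h x| ≤ c) (x : T) :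
    ∃ A, ∀ k, |h (f^[k] x) - δ ^ k * A| ≤ c := by
  have hδ0 : (0 : ℝ) < δ := by linarith
  set a : ℕ → ℝ := fun k => h (f^[k] x) / δ ^ k with ha
  have hc : 0 ≤ c := (abs_nonneg _).trans (hf x)
  have hst : ∀ k, dist (a k) (a (k + 1)) ≤ (c / δ) * (1 / δ) ^ k := by
    intro k
    rw [Real.dist_eq, abs_sub_comm]
    have e : a (k + 1) - a k = (h (f (f^[k] x)) - δ * h (f^[k] x)) / δ ^ (k + 1) := by
      simp only [ha]
      rw [Function.iterate_succ_apply', pow_succ]
      field_simp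
    rw [e, abs_div, abs_of_pos (by positivity : (0 : ℝ) < δ ^ (k + 1))]
    calc _ ≤ c / δ ^ (k + 1) := div_le_div_of_nonneg_right (hf _) (by positivity)
      _ = _ := by
        rw [pow_succ, one_div, inv_pow]
        field_simp
  have hr : (1 : ℝ) / δ < 1 := by
    rw [div_lt_one hδ0]
    linarith
  have hcau := cauchySeq_of_le_geometric _ _ hr hst
  obtain ⟨A, hA⟩ := cauchySeq_tendsto_of_complete hcau
  refine ⟨A, fun k => ?_⟩
  have h1 := dist_le_of_le_geometric_of_tendsto _ _ hr hst hA k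
  rw [Real.dist_eq] at h1
  have e : h (f^[k] x) - δ ^ k * A = δ ^ k * (a k - A) := by
    simp only [ha]
    field_simp
  rw [e, abs_mul, abs_of_pos (by positivity : (0 : ℝ) < δ ^ k)]
  have h2 : δ ^ k * |a k - A| ≤ δ ^ k * (c / δ * (1 / δ) ^ k / (1 - 1 / δ)) :=
    mul_le_mul_of_nonneg_left h1 (by positivity)
  refine h2.trans ?_
  have e2 : δ ^ k * (c / δ * (1 / δ) ^ k / (1 - 1 / δ)) = c / (δ - 1) := by
    have h3 : δ - 1 ≠ 0 := by linarith
    have h4 : (1 : ℝ) - 1 / δ ≠ 0 := by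
      have : (1 : ℝ) / δ < 1 := hr
      linarith
    rw [one_div, inv_pow]
    field_simp
  rw [e2, div_le_iff₀ (by linarith)]
  nlinarith

theorem IsCan.iter {f : T → T} {δ : ℝ} {x : T} {A : ℝ} (hA : IsCan h f δ x A) (m : ℕ) :
    IsCan h f δ (f^[m] x) (δ ^ m * A) := by
  obtain ⟨C, hC⟩ := hA
  refine ⟨C, fun k => ?_⟩
  rw [← Function.iterate_add_apply, ← mul_assoc, ← pow_add]
  exact hC (k + m)

theorem IsCan.pow {f : T → T} {δ : ℝ} {x : T} {A : ℝ} (hA : IsCan h f δ x A) (a : ℕ) :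
    IsCan h (f^[a]) (δ ^ a) x A := by
  obtain ⟨C, hC⟩ := hA
  refine ⟨C, fun k => ?_⟩
  rw [← Function.iterate_mul, ← pow_mul]
  exact hC (a * k)

/-- `h (f^a x) = δ^a * h x + O(1)` -/
theorem iter_quasi {f : T → T} {δ c : ℝ} (hδ : 0 ≤ δ) (hf : ∀ x, |h (f x) - δ * h x| ≤ c) (a : ℕ) :
    ∃ c', ∀ x, |h (f^[a] x) - δ ^ a * h x| ≤ c' := by
  induction a with
  | zero => exact ⟨0, fun x => by simp⟩
  | succ a ih =>
    obtain ⟨c', hc'⟩ := ih
    refine ⟨c + δ * c', fun x => ?_⟩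
    rw [Function.iterate_succ_apply']
    have e : h (f (f^[a] x)) - δ ^ (a + 1) * h x =
        (h (f (f^[a] x)) - δ * h (f^[a] x)) + δ * (h (f^[a] x) - δ ^ a * h x) := by ring
    rw [e]
    refine (abs_add_le _ _).trans (add_le_add (hf _) ?_)
    rw [abs_mul, abs_of_nonneg hδ]
    exact mul_le_mul_of_nonneg_left (hc' x) hδ

/-- The canonical heights of commuting maps coincide. -/
theorem can_comm {f g : T → T} {δ ε c c' : ℝ} (hδ : 2 ≤ δ) (hε : 2 ≤ ε)
    (hf : ∀ x, |h (f x) - δ * h x| ≤ c) (hg : ∀ x, |h (g x) - ε * h x| ≤ c')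
    (hfg : ∀ x, f (g x) = g (f x)) {x : T} {A B : ℝ} (hA : IsCan h f δ x A)
    (hB : IsCan h g ε x B) : A = B := by
  have hcomm : Function.Commute f g := hfg
  choose can hcan using exists_can (h := h) hδ hf
  have h1 : ∀ y, can (g y) = ε * can y := by
    intro y
    refine IsCan.unique (h := h) (f := f) (δ := δ) (by linarith) (x := g y) ⟨c, hcan (g y)⟩ ?_
    refine ⟨c' + ε * c, fun k => ?_⟩
    rw [(hcomm.iterate_left k) y]
    have e : h (g (f^[k] y)) - δ ^ k * (ε * can y) =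
        (h (g (f^[k] y)) - ε * h (f^[k] y)) + ε * (h (f^[k] y) - δ ^ k * can y) := by ring
    rw [e]
    refine (abs_add_le _ _).trans (add_le_add (hg _) ?_)
    rw [abs_mul, abs_of_nonneg (by linarith : 0 ≤ ε)]
    exact mul_le_mul_of_nonneg_left (hcan y k) (by linarith)
  have h2 : ∀ k, can (g^[k] x) = ε ^ k * can x := by
    intro k
    induction k with
    | zero => simp
    | succ k ih => rw [Function.iterate_succ_apply', h1, ih, pow_succ]; ring
  have h3 : A = can x := IsCan.unique (by linarith) hA ⟨c, hcan x⟩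
  rw [h3]
  refine IsCan.unique (h := h) (f := g) (δ := ε) (by linarith) ⟨c, fun k => ?_⟩ hB
  rw [← h2]
  have := hcan (g^[k] x) 0
  rwa [Function.iterate_zero, id, pow_zero, one_mul] at this

theorem Preper.iff_not_injective (f : T → T) (x : T) :
    Preper f x ↔ ¬ Function.Injective fun m => f^[m] x := by
  constructor
  · rintro ⟨m, n, hmn, e⟩ hinj
    exact hmn.ne (hinj e)
  · intro hinj
    unfold Function.Injective at hinj
    push Not at hinj
    obtain ⟨m, n, e, hne⟩ := hinj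
    rcases lt_or_gt_of_ne hne with h1 | h1
    · exact ⟨m, n, h1, e⟩
    · exact ⟨n, m, h1, e.symm⟩

/-- The canonical height of a non-preperiodic point is positive (Northcott). -/
theorem can_pos (hN : ∀ B : ℝ, {x : T | h x ≤ B}.Finite) {f : T → T} {δ : ℝ} (hδ : 0 < δ) {x : T}
    {A : ℝ} (hA : IsCan h f δ x A) (hx : ¬ Preper f x) : 0 < A := by
  by_contra hcon
  push Not at hcon
  obtain ⟨C, hC⟩ := hA
  rw [Preper.iff_not_injective, not_not] at hx
  refine (Set.infinite_range_of_injective hx) ((hN C).subset ?_)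
  rintro y ⟨k, rfl⟩
  have h1 := (abs_le.1 (hC k)).2
  have h2 : δ ^ k * A ≤ 0 := mul_nonpos_of_nonneg_of_nonpos (by positivity) hcon
  show h (f^[k] x) ≤ C
  linarith

/-- finitely many positive numbers have a positive lower bound -/
theorem finite_lower {s : Set T} (hs : s.Finite) (g : T → ℝ) (hg : ∀ x ∈ s, 0 < g x) :
    ∃ ε : ℝ, 0 < ε ∧ ∀ x ∈ s, ε ≤ g x := by
  rcases s.eq_empty_or_nonempty with h0 | h0
  · exact ⟨1, one_pos, fun x hx => by rw [h0] at hx; exact hx.elim⟩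
  · obtain ⟨x, hx, hmin⟩ := Set.exists_min_image s g hs h0
    exact ⟨g x, hg x hx, hmin⟩

/-- The canonical heights of the non-preperiodic points are bounded from below. -/
theorem can_lower (hN : ∀ B : ℝ, {x : T | h x ≤ B}.Finite) {f : T → T} {δ c : ℝ} (hδ : 2 ≤ δ)
    (hf : ∀ x, |h (f x) - δ * h x| ≤ c) :
    ∃ A₀ : ℝ, 0 < A₀ ∧ ∀ x A, ¬ Preper f x → IsCan h f δ x A → A₀ ≤ A := by
  choose can hcan using exists_can (h := h) hδ hf
  obtain ⟨ε, hε, hεm⟩ := finite_lower (s := {x | h x ≤ 1 + c} ∩ {x | ¬ Preper f x})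
    ((hN (1 + c)).subset Set.inter_subset_left) can
    (fun x hx => can_pos hN (by linarith) ⟨c, hcan x⟩ hx.2)
  refine ⟨min ε 1, lt_min hε one_pos, fun x A hx hA => ?_⟩
  rw [IsCan.unique (by linarith) hA ⟨c, hcan x⟩]
  rcases le_or_gt (can x) 1 with h1 | h1
  · refine (min_le_left _ _).trans (hεm x ⟨?_, hx⟩)
    have h2 := (abs_le.1 (hcan x 0)).2
    rw [Function.iterate_zero, id, pow_zero, one_mul] at h2
    show h x ≤ 1 + c
    linarith
  · exact (min_le_right _ _).trans h1.le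

end Pool.Agent.Lib.MP_c7b5d6_nt
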