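import Pool.Agent.Lib.MP_c7b5d6_nt.Defs

/-!
# Counting with the iterated logarithm
-/

set_option autoImplicit false

namespace Pool.Agent.Lib.MP_c7b5d6_nt

theorem tower_pos (k : ℕ) : 0 < tower k := by
  cases k with
  | zero => exact Nat.one_pos
  | succ k => exact Nat.pow_pos (by norm_num)

theorem le_tower (k : ℕ) : k ≤ tower k := by
  induction k with
  | zero => exact Nat.zero_le _
  | succ k ih =>
    have : tower k < 2 ^ tower k := Nat.lt_two_pow_self
    show k + 1 ≤ 2 ^ tower k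
    omega

theorem exists_tower (T : ℕ) : ∃ k, T ≤ tower k := ⟨T, le_tower T⟩

theorem le_tower_logStar (T : ℕ) : T ≤ tower (logStar T) :=
  Nat.sInf_mem (s := {k | T ≤ tower k}) (exists_tower T)

/-- finite sets with the gap property contain large elements -/
theorem count_large {M : Set ℕ} {c₀ : ℕ} (hc : ∀ x ∈ M, ∀ y ∈ M, ∀ z ∈ M, 2 * c₀ ≤ x → x < y →
      y < z → 2 ^ (x - c₀) + c₀ ≤ z) (h1 : 1 ≤ c₀) (k : ℕ) :
    ∀ F : Finset ℕ, (∀ x ∈ F, x ∈ M ∧ 2 * c₀ ≤ x) → 2 * k + 1 ≤ F.card →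
      ∃ x ∈ F, c₀ + tower k ≤ x := by
  induction k with
  | zero =>
    intro F hF hcard
    obtain ⟨x, hx⟩ : F.Nonempty := Finset.card_pos.1 (by omega)
    refine ⟨x, hx, ?_⟩
    have := (hF x hx).2
    have h : tower 0 = 1 := rfl
    omega
  | succ k ih =>
    intro F hF hcard
    have hne : F.Nonempty := Finset.card_pos.1 (by omega)
    set z := F.max' hne with hz
    have hzF : z ∈ F := F.max'_mem hne
    have hc1 : (F.erase z).card = F.card - 1 := Finset.card_erase_of_mem hzF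
    have hne1 : (F.erase z).Nonempty := Finset.card_pos.1 (by omega)
    set y := (F.erase z).max' hne1 with hy
    have hyF : y ∈ F.erase z := (F.erase z).max'_mem hne1
    have hc2 : ((F.erase z).erase y).card = F.card - 2 := by
      rw [Finset.card_erase_of_mem hyF, hc1]
      omega
    obtain ⟨x, hx, hxk⟩ := ih ((F.erase z).erase y)
      (fun w hw => hF w (Finset.mem_of_mem_erase (Finset.mem_of_mem_erase hw))) (by omega)
    have hxy : x < y := by
      have h2 := Finset.mem_erase.1 hx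
      exact lt_of_le_of_ne ((F.erase z).le_max' x h2.2) h2.1
    have hyz : y < z := by
      have h2 := Finset.mem_erase.1 hyF
      exact lt_of_le_of_ne (F.le_max' y h2.2) h2.1
    have hxF : x ∈ F := Finset.mem_of_mem_erase (Finset.mem_of_mem_erase hx)
    refine ⟨z, hzF, ?_⟩
    have h3 := hc x (hF x hxF).1 y (hF y (Finset.mem_of_mem_erase hyF)).1 z (hF z hzF).1
      (hF x hxF).2 hxy hyz
    have h4 : 2 ^ tower k ≤ 2 ^ (x - c₀) := Nat.pow_le_pow_right (by norm_num) (by omega)
    have h5 : tower (k + 1) = 2 ^ tower k := rfl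
    omega

/-- A set of natural numbers with `2 ^ x ≤ C * z` for all `x < y < z` in it has at most
`2 log* T + C'` elements up to `T`, where `C'` only depends on `C`. -/
theorem count_logStar (C : ℝ) : ∃ C' : ℕ, ∀ M : Set ℕ,
    (∀ x ∈ M, ∀ y ∈ M, ∀ z ∈ M, x < y → y < z → (2 : ℝ) ^ x ≤ C * z) →
    ∀ T : ℕ, (M ∩ {x | x ≤ T}).ncard ≤ 2 * logStar T + C' := by
  obtain ⟨c, hc⟩ := pow_unbounded_of_one_lt (2 * max C 1) (by norm_num : (1 : ℝ) < 2)
  set c₀ := c + 1 with hc₀
  have hcc : 2 * max C 1 ≤ (2 : ℝ) ^ c₀ := by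
    rw [hc₀, pow_succ]
    have : 0 < (2 : ℝ) ^ c := by positivity
    linarith
  refine ⟨2 * c₀, fun M h T => ?_⟩
  have hgap : ∀ x ∈ M, ∀ y ∈ M, ∀ z ∈ M, 2 * c₀ ≤ x → x < y → y < z →
      2 ^ (x - c₀) + c₀ ≤ z := by
    intro x hx y hy z hz hx0 hxy hyz
    have h1 := h x hx y hy z hz hxy hyz
    obtain ⟨u, rfl⟩ := Nat.exists_eq_add_of_le (by omega : c₀ ≤ x)
    have hu : c₀ ≤ u := by omega
    rw [Nat.add_sub_cancel_left]
    have h2 : c₀ ≤ 2 ^ u := hu.trans Nat.lt_two_pow_self.le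
    have hz0 : (0 : ℝ) ≤ z := by positivity
    have hm1 : (0 : ℝ) < max C 1 := lt_of_lt_of_le one_pos (le_max_right _ _)
    have h3 : (2 : ℝ) ^ (c₀ + u) ≤ max C 1 * z :=
      h1.trans (mul_le_mul_of_nonneg_right (le_max_left _ _) hz0)
    rw [pow_add] at h3
    have h4 : 2 * max C 1 * (2 : ℝ) ^ u ≤ max C 1 * z :=
      (mul_le_mul_of_nonneg_right hcc (by positivity)).trans h3
    have h5 : 2 * (2 : ℝ) ^ u ≤ z := by
      have : max C 1 * (2 * (2 : ℝ) ^ u) ≤ max C 1 * z := by linarith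
      exact le_of_mul_le_mul_left this hm1
    have h6 : 2 * 2 ^ u ≤ z := by exact_mod_cast h5
    omega
  classical
  have hfin : (M ∩ {x | x ≤ T}).Finite := (Set.finite_le_nat T).subset Set.inter_subset_right
  rw [Set.ncard_eq_toFinset_card _ hfin]
  set F := hfin.toFinset with hF
  have hmem : ∀ x, x ∈ F ↔ x ∈ M ∧ x ≤ T := fun x => by
    rw [hF, Set.Finite.mem_toFinset]
    rfl
  rw [← Finset.card_filter_add_card_filter_not (s := F) (fun x => 2 * c₀ ≤ x)]
  have h1 : (F.filter fun x => ¬ 2 * c₀ ≤ x).card ≤ 2 * c₀ := by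
    calc _ ≤ (Finset.range (2 * c₀)).card := by
          refine Finset.card_le_card fun x hx => ?_
          rw [Finset.mem_range]
          have := (Finset.mem_filter.1 hx).2
          omega
      _ = _ := Finset.card_range _
  have h2 : (F.filter fun x => 2 * c₀ ≤ x).card ≤ 2 * logStar T := by
    by_contra hcon
    push Not at hcon
    obtain ⟨x, hx, hxt⟩ := count_large hgap (by omega) (logStar T)
      (F.filter fun x => 2 * c₀ ≤ x) (fun x hx => by
        rw [Finset.mem_filter, hmem] at hx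
        exact ⟨hx.1.1, hx.2⟩) (by omega)
    have h3 := le_tower_logStar T
    rw [Finset.mem_filter, hmem] at hx
    have := hx.1.2
    omega
  omega

end Pool.Agent.Lib.MP_c7b5d6_nt
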