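import Mathlib

/-!
# Polarizable endomorphisms of projective varieties

A projective variety `X` over `K` with a very ample line bundle `L` is a closed subvariety of
`P^N` with `L = O_X(1)`. It is given here by a homogeneous ideal `I` of `K[x_0, ..., x_N]`.

Let `Φ : X → X` be a `K`-morphism with `Φ^* L ≅ L^d`. The sections `σ_i = Φ^* x_i` of
`Φ^* O_X(1) = O_X(d)` have no common zero and `Φ (x) = [σ_0 (x) : ... : σ_N (x)]`. On the open set
`x_j ≠ 0` of `X` the section `σ_i` is `F j i / x_j ^ M` with a form `F j i` of degree `d + M` over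
`K` (one `M` for all `i, j`). So a polarizable endomorphism of degree `d` is given by forms `F j i`
of degree `d + M` such that on the cone over `X` (over an algebraic closure of `K`) one has
`F j i / x_j ^ M = F k i / x_k ^ M`, and such that at every point of `X` with `x_j ≠ 0` the vector
`(F j 0, ..., F j N)` is not zero and represents a point of `X`.
-/

set_option autoImplicit false

namespace Pool.Agent.Lib.MP_c7b5d6_nt

open MvPolynomial

/-! ## Pairs of exponents -/

/-- `d` and `e` are multiplicatively independent. -/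
def MulIndep (d e : ℕ) : Prop := ∀ a b : ℕ, d ^ a = e ^ b → a = 0 ∧ b = 0

/-- `x` is preperiodic for `f` -/
def Preper {T : Type*} (f : T → T) (x : T) : Prop := ∃ m n, m < n ∧ f^[m] x = f^[n] x

/-- the tower function `1, 2, 4, 16, 65536, ...` -/
def tower : ℕ → ℕ
  | 0 => 1
  | k + 1 => 2 ^ tower k

/-- The iterated logarithm `log*` to the base 2: the least `k` with `T ≤ tower k`. -/
noncomputable def logStar (T : ℕ) : ℕ := sInf {k | T ≤ tower k}

/-- the ray `{(i + k r, j + l r) : r = 0, 1, 2, ...}` -/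
def ray (i j k l : ℕ) : Set (ℕ × ℕ) := {p | ∃ r : ℕ, p = (i + k * r, j + l * r)}

/-- `S` is the union of finitely many rays -/
def IsRayUnion (S : Set (ℕ × ℕ)) : Prop :=
  ∃ R : Finset (ℕ × ℕ × ℕ × ℕ), S = ⋃ ρ ∈ R, ray ρ.1 ρ.2.1 ρ.2.2.1 ρ.2.2.2

/-- the composition of a word in `f` (the letter `true`) and `g` (the letter `false`); the last
letter is applied first -/
def wordMap {T : Type*} (f g : T → T) : List Bool → T → T
  | [] => id
  | b :: w => (if b then f else g) ∘ wordMap f g w

/-- For arbitrarily large `j` the maps `f^j` and `g^j` have a common left multiple in the semigroup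
generated by `f` and `g`: `v ∘ f^j = w ∘ g^j` for words `v`, `w` in `f` and `g`. -/
def CommonMult {T : Type*} (f g : T → T) : Prop :=
  ∀ j₀ : ℕ, ∃ j, j₀ ≤ j ∧ ∃ v w : List Bool, ∀ x, wordMap f g v (f^[j] x) = wordMap f g w (g^[j] x)

/-! ## Varieties -/

/-- A projective variety `X ⊆ P^N` over `K` with the very ample line bundle `O_X(1)`, given by a
homogeneous ideal (which need not be prime). -/
structure ProjVar (K : Type) [Field K] (N : ℕ) where
  /-- the homogeneous ideal of `X` -/
  I : Ideal (MvPolynomial (Fin (N + 1)) K)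
  homog : ∀ f ∈ I, ∀ n, homogeneousComponent n f ∈ I

variable {K : Type} [Field K] {N : ℕ}

/-- the affine cone over `X`, with coordinates in the extension field `E` of `K` -/
def ProjVar.cone (X : ProjVar K N) (E : Type) [Field E] [Algebra K E] : Set (Fin (N + 1) → E) :=
  {x | ∀ f ∈ X.I, aeval x f = 0}

/-- the set `X(K)` of the `K`-rational points of `X` -/
def ProjVar.Pts (X : ProjVar K N) : Type :=
  {P : Projectivization K (Fin (N + 1) → K) // P.rep ∈ X.cone K}

/-- A `K`-morphism `Φ : X → X` with `Φ^* O_X(1) ≅ O_X(d)`. On `x_j ≠ 0` the pull back of the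
coordinate `x_i` is `F j i / x_j ^ M`. -/
structure PolEnd (X : ProjVar K N) (d : ℕ) where
  /-- the order of the denominators -/
  M : ℕ
  /-- the numerators -/
  F : Fin (N + 1) → Fin (N + 1) → MvPolynomial (Fin (N + 1)) K
  homog : ∀ j i, (F j i).IsHomogeneous (d + M)
  glue : ∀ x ∈ X.cone (AlgebraicClosure K), ∀ i j k,
    x k ^ M * aeval x (F j i) = x j ^ M * aeval x (F k i)
  ne_zero : ∀ x ∈ X.cone (AlgebraicClosure K), ∀ j, x j ≠ 0 → ∃ i, aeval x (F j i) ≠ 0
  maps : ∀ x ∈ X.cone (AlgebraicClosure K), ∀ j, x j ≠ 0 →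
    (fun i => aeval x (F j i)) ∈ X.cone (AlgebraicClosure K)

theorem aeval_smul_of_homog {E : Type} [Field E] [Algebra K E] {f : MvPolynomial (Fin (N + 1)) K}
    {n : ℕ} (hf : f.IsHomogeneous n) (a : E) (x : Fin (N + 1) → E) :
    aeval (a • x) f = a ^ n * aeval x f := by
  rw [aeval_def, aeval_def, eval₂_eq', eval₂_eq', Finset.mul_sum]
  refine Finset.sum_congr rfl fun m hm => ?_
  have h1 : m.degree = n := by
    rw [Finsupp.degree_eq_weight_one]
    exact hf (mem_support_iff.1 hm)
  have h2 : ∏ i, (a • x) i ^ m i = a ^ n * ∏ i, x i ^ m i := by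
    simp only [Pi.smul_apply, smul_eq_mul, mul_pow]
    rw [Finset.prod_mul_distrib, Finset.prod_pow_eq_pow_sum, ← h1]
    congr 2
    rw [Finsupp.degree_eq_sum]
  rw [h2]
  ring

/-- the cone is stable under scalars -/
theorem ProjVar.smul_mem (X : ProjVar K N) {E : Type} [Field E] [Algebra K E]
    {x : Fin (N + 1) → E} (hx : x ∈ X.cone E) (a : E) : a • x ∈ X.cone E := by
  intro f hf
  rw [← sum_homogeneousComponent f, map_sum]
  refine Finset.sum_eq_zero fun n _ => ?_
  have h1 : aeval x (homogeneousComponent n f) = 0 := hx _ (X.homog f hf n)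
  rw [aeval_smul_of_homog (homogeneousComponent_isHomogeneous n f), h1, mul_zero]

/-- base change of points of the cone -/
theorem ProjVar.mem_algClosure (X : ProjVar K N) {x : Fin (N + 1) → K} (hx : x ∈ X.cone K) :
    (algebraMap K (AlgebraicClosure K)) ∘ x ∈ X.cone (AlgebraicClosure K) := by
  intro f hf
  rw [aeval_algebraMap_apply, hx f hf, map_zero]

theorem ProjVar.mem_of_algClosure (X : ProjVar K N) {x : Fin (N + 1) → K}
    (hx : (algebraMap K (AlgebraicClosure K)) ∘ x ∈ X.cone (AlgebraicClosure K)) :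
    x ∈ X.cone K := by
  intro f hf
  have := hx f hf
  rw [aeval_algebraMap_apply] at this
  exact (map_eq_zero _).1 this

namespace PolEnd

variable {X : ProjVar K N} {d : ℕ} (Φ : PolEnd X d)

/-- the vector `(F j 0, ..., F j N)` at `x` -/
noncomputable def vec (j : Fin (N + 1)) (x : Fin (N + 1) → K) : Fin (N + 1) → K :=
  fun i => aeval x (Φ.F j i)

theorem vec_alg (j : Fin (N + 1)) (x : Fin (N + 1) → K) :
    (fun i => aeval ((algebraMap K (AlgebraicClosure K)) ∘ x) (Φ.F j i)) =
      (algebraMap K (AlgebraicClosure K)) ∘ Φ.vec j x := by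
  funext i
  rw [aeval_algebraMap_apply]
  rfl

theorem vec_ne_zero {x : Fin (N + 1) → K} (hx : x ∈ X.cone K) {j : Fin (N + 1)} (hj : x j ≠ 0) :
    Φ.vec j x ≠ 0 := by
  intro h0
  obtain ⟨i, hi⟩ := Φ.ne_zero _ (X.mem_algClosure hx) j (by
    rw [Function.comp_apply]
    exact fun h => hj ((map_eq_zero _).1 h))
  apply hi
  have := congrFun (Φ.vec_alg j x) i
  rw [this, h0, Function.comp_apply, Pi.zero_apply, map_zero]

theorem vec_mem {x : Fin (N + 1) → K} (hx : x ∈ X.cone K) {j : Fin (N + 1)} (hj : x j ≠ 0) :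
    Φ.vec j x ∈ X.cone K := by
  have h1 := Φ.maps _ (X.mem_algClosure hx) j (by
    rw [Function.comp_apply]
    exact fun h => hj ((map_eq_zero _).1 h))
  rw [vec_alg] at h1
  exact X.mem_of_algClosure h1

theorem vec_glue {x : Fin (N + 1) → K} (hx : x ∈ X.cone K) (i j k : Fin (N + 1)) :
    x k ^ Φ.M * Φ.vec j x i = x j ^ Φ.M * Φ.vec k x i := by
  have h1 := Φ.glue _ (X.mem_algClosure hx) i j k
  rw [aeval_algebraMap_apply, aeval_algebraMap_apply, Function.comp_apply, Function.comp_apply,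
    ← map_pow, ← map_pow, ← map_mul, ← map_mul] at h1
  exact (algebraMap K (AlgebraicClosure K)).injective h1

/-- an index with a nonzero coordinate -/
noncomputable def idx (P : Projectivization K (Fin (N + 1) → K)) : Fin (N + 1) :=
  (Function.ne_iff.1 P.rep_nonzero).choose

theorem rep_idx (P : Projectivization K (Fin (N + 1) → K)) : P.rep (idx P) ≠ 0 :=
  (Function.ne_iff.1 P.rep_nonzero).choose_spec

/-- the map `Φ : X(K) → X(K)` -/
noncomputable def map (P : X.Pts) : X.Pts :=
  ⟨Projectivization.mk K (Φ.vec (idx P.1) P.1.rep) (Φ.vec_ne_zero P.2 (rep_idx P.1)), by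
    obtain ⟨a, ha⟩ := Projectivization.exists_smul_eq_mk_rep K (Φ.vec (idx P.1) P.1.rep)
      (Φ.vec_ne_zero P.2 (rep_idx P.1))
    rw [← ha]
    exact X.smul_mem (Φ.vec_mem P.2 (rep_idx P.1)) a⟩

/-- `Φ` can be computed with any index `j` and any homogeneous coordinates `x` with `x_j ≠ 0`. -/
theorem map_eq (P : X.Pts) {x : Fin (N + 1) → K} (hx0 : x ≠ 0)
    (hx : P.1 = Projectivization.mk K x hx0) (hxX : x ∈ X.cone K) {j : Fin (N + 1)}
    (hj : x j ≠ 0) : (Φ.map P).1 = Projectivization.mk K (Φ.vec j x) (Φ.vec_ne_zero hxX hj) := by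
  obtain ⟨⟨a, ha⟩⟩ : Nonempty {a : K // a • x = P.1.rep} := by
    obtain ⟨a, ha⟩ := Projectivization.exists_smul_eq_mk_rep K x hx0
    rw [← hx] at ha
    exact ⟨⟨a, ha⟩⟩
  have ha0 : a ≠ 0 := by
    rintro rfl
    rw [zero_smul] at ha
    exact P.1.rep_nonzero ha.symm
  set k := idx P.1 with hk
  have hk0 : P.1.rep k ≠ 0 := rep_idx P.1
  have hxk : x k ≠ 0 := by
    intro h0
    rw [← ha, Pi.smul_apply, h0, smul_zero] at hk0
    exact hk0 rfl
  have hmap : (Φ.map P).1 =
    Projectivization.mk K (Φ.vec k P.1.rep) (Φ.vec_ne_zero P.2 hk0) := rfl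
  rw [hmap, Projectivization.mk_eq_mk_iff']
  refine ⟨a ^ (d + Φ.M) * ((x k) ^ Φ.M / (x j) ^ Φ.M), ?_⟩
  funext i
  have h1 : Φ.vec k P.1.rep i = a ^ (d + Φ.M) * Φ.vec k x i := by
    unfold vec
    rw [← ha, aeval_smul_of_homog (Φ.homog k i)]
  have h2 := Φ.vec_glue hxX i j k
  rw [h1, Pi.smul_apply, smul_eq_mul]
  have hjM : x j ^ Φ.M ≠ 0 := pow_ne_zero _ hj
  field_simp
  linear_combination h2

end PolEnd

/-- the set `S(Φ, Ψ, α, β)` of the pairs `(m, n)` with `Φ^m (α) = Ψ^n (β)` -/
def orbitSet {X : ProjVar K N} {d e : ℕ} (Φ : PolEnd X d) (Ψ : PolEnd X e) (α β : X.Pts) :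
    Set (ℕ × ℕ) := {p | Φ.map^[p.1] α = Ψ.map^[p.2] β}

end Pool.Agent.Lib.MP_c7b5d6_nt
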