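import Pool.Agent.Lib.MP_c7b5d6_nt.Defs

/-!
# Heights of rational points: functoriality and Northcott's theorem
-/

set_option autoImplicit false

namespace Pool.Agent.Lib.MP_c7b5d6_nt

open MvPolynomial Height

variable {K : Type} [Field K] {N : ℕ}

theorem aeval_eval (x : Fin (N + 1) → K) (p : MvPolynomial (Fin (N + 1)) K) :
    aeval x p = eval x p :=
  RingHom.congr_fun (coe_aeval_eq_eval x) p

section Null

attribute [local instance] MvPolynomial.gradedAlgebra

theorem component_mul {q p : MvPolynomial (Fin (N + 1)) K} {i j : ℕ} (hp : p.IsHomogeneous j) :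
    homogeneousComponent (i + j) (q * p) = homogeneousComponent i q * p := by
  have h := DirectSum.coe_decompose_mul_add_of_right_mem
    (homogeneousSubmodule (Fin (N + 1)) K) (i := i) (j := j) (a := q) (b := p) hp
  rw [← decomposition.decompose'_apply, ← decomposition.decompose'_apply]
  exact h

/-- The certificate from the Nullstellensatz: on the cone over `X` some power of each coordinate is
a combination of the forms of `Φ`. -/
theorem exists_cert {X : ProjVar K N} {d : ℕ} (Φ : PolEnd X d) :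
    ∃ (M' : ℕ) (q : Fin (N + 1) × (Fin (N + 1) × Fin (N + 1)) → MvPolynomial (Fin (N + 1)) K),
      (∀ a, (q a).IsHomogeneous M') ∧ ∀ x ∈ X.cone K, ∀ k,
        ∑ a, eval x (q (k, a)) * eval x (Φ.F a.1 a.2) = x k ^ (M' + (d + Φ.M)) := by
  classical
  set G : Fin (N + 1) × Fin (N + 1) → MvPolynomial (Fin (N + 1)) K := fun a => Φ.F a.1 a.2 with hG
  set J : Ideal (MvPolynomial (Fin (N + 1)) K) := X.I ⊔ Ideal.span (Set.range G) with hJ
  have hrad : ∀ k, (MvPolynomial.X k : MvPolynomial (Fin (N + 1)) K) ∈ J.radical := by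
    intro k
    rw [← vanishingIdeal_zeroLocus_eq_radical (K := AlgebraicClosure K) J,
      mem_vanishingIdeal_iff]
    intro y hy
    rw [mem_zeroLocus_iff] at hy
    rw [aeval_X]
    by_contra hyk
    obtain ⟨i, hi⟩ := Φ.ne_zero y (fun f hf => hy f (Ideal.mem_sup_left hf)) k hyk
    exact hi (hy _ (Ideal.mem_sup_right (Ideal.subset_span ⟨(k, i), rfl⟩)))
  choose r hr using hrad
  set M' := Finset.univ.sup r with hM'
  have hpow : ∀ k, (MvPolynomial.X k : MvPolynomial (Fin (N + 1)) K) ^ (M' + (d + Φ.M)) ∈ J := by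
    intro k
    have : r k ≤ M' + (d + Φ.M) := (Finset.le_sup (Finset.mem_univ k)).trans (Nat.le_add_right _ _)
    exact Ideal.pow_mem_of_pow_mem _ (hr k) this
  have hex : ∀ k, ∃ q : Fin (N + 1) × Fin (N + 1) → MvPolynomial (Fin (N + 1)) K,
      (MvPolynomial.X k : MvPolynomial (Fin (N + 1)) K) ^ (M' + (d + Φ.M)) -
        ∑ a, q a * G a ∈ X.I := by
    intro k
    obtain ⟨g, hg, g', hg', e⟩ := Submodule.mem_sup.1 (hpow k)
    obtain ⟨c, hc⟩ := Ideal.mem_span_range_iff_exists_fun.1 hg'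
    refine ⟨c, ?_⟩
    rw [hc, ← e, add_sub_cancel_right]
    exact hg
  choose q hq using hex
  refine ⟨M', fun a => homogeneousComponent M' (q a.1 a.2),
    fun a => homogeneousComponent_isHomogeneous _ _, fun x hx k => ?_⟩
  have h1 := X.homog _ (hq k) (M' + (d + Φ.M))
  rw [map_sub, homogeneousComponent_eq_self (isHomogeneous_X_pow k _), map_sum] at h1
  simp only [component_mul (Φ.homog _ _), hG] at h1
  have h2 := hx _ h1
  rw [map_sub, map_pow, aeval_X, map_sum, sub_eq_zero] at h2
  rw [h2]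
  refine Finset.sum_congr rfl fun a _ => ?_
  rw [map_mul, aeval_eval, aeval_eval]

end Null

variable [NumberField K]

/-- the height on `X(K)` -/
noncomputable def ht {X : ProjVar K N} (P : X.Pts) : ℝ := Projectivization.logHeight P.1

theorem ht_quasi {X : ProjVar K N} {d : ℕ} (Φ : PolEnd X d) :
    ∃ c, ∀ P : X.Pts, |ht (Φ.map P) - d * ht P| ≤ c := by
  obtain ⟨M', q, hq, hqe⟩ := exists_cert Φ
  obtain ⟨C₁, h₁⟩ := logHeight_eval_le' (K := K)
    (p := fun a : Fin (N + 1) × Fin (N + 1) => Φ.F a.1 a.2) (fun a => Φ.homog a.1 a.2)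
  obtain ⟨C₂, h₂⟩ := logHeight_eval_ge' (K := K) (N := d + Φ.M) hq
  refine ⟨max C₁ (-C₂), fun P => ?_⟩
  set x : Fin (N + 1) → K := P.1.rep with hx
  set j := PolEnd.idx P.1 with hj
  have hxj : x j ≠ 0 := PolEnd.rep_idx P.1
  have hxX : x ∈ X.cone K := P.2
  have hx0 : x ≠ 0 := P.1.rep_nonzero
  have hv := Φ.vec_ne_zero hxX hxj
  have e1 : ht (Φ.map P) = logHeight (Φ.vec j x) := rfl
  have e2 : ht P = logHeight x := by
    unfold ht
    conv_lhs => rw [← P.1.mk_rep]
    rw [Projectivization.logHeight_mk]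
  -- the height of all the values
  have e3 : (logHeight fun a : Fin (N + 1) × Fin (N + 1) => eval x (Φ.F a.1 a.2)) =
      Φ.M * logHeight x + logHeight (Φ.vec j x) := by
    have hxM : x ^ Φ.M ≠ 0 := by
      intro h
      have := congrFun h j
      exact pow_ne_zero _ hxj this
    have hxjM : x j ^ Φ.M ≠ 0 := pow_ne_zero _ hxj
    have e4 : (fun a : Fin (N + 1) × Fin (N + 1) => eval x (Φ.F a.1 a.2)) =
        (x j ^ Φ.M)⁻¹ • fun a : Fin (N + 1) × Fin (N + 1) => (x ^ Φ.M) a.1 * Φ.vec j x a.2 := by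
      funext a
      have h5 := Φ.vec_glue hxX a.2 j a.1
      have h6 : eval x (Φ.F a.1 a.2) = Φ.vec a.1 x a.2 := by
        unfold PolEnd.vec
        rw [aeval_eval]
      rw [h6, Pi.smul_apply, smul_eq_mul, Pi.pow_apply, h5]
      field_simp
    rw [e4, logHeight_smul_eq_logHeight _ (inv_ne_zero hxjM), logHeight_fun_mul_eq hxM hv,
      logHeight_pow]
  have h3 := h₁ x
  have h4 := h₂ (fun a : Fin (N + 1) × Fin (N + 1) => Φ.F a.1 a.2) (x := x) (hqe x hxX)
  rw [e3] at h3 h4
  push_cast at h3 h4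
  rw [e1, e2, abs_le]
  have h5 := le_max_left C₁ (-C₂)
  have h6 := le_max_right C₁ (-C₂)
  constructor
  · nlinarith
  · nlinarith

/-- Northcott's theorem for `X(K)`. -/
theorem ht_northcott {X : ProjVar K N} (B : ℝ) : {P : X.Pts | ht P ≤ B}.Finite := by
  -- the normalised coordinates of a point have bounded height
  have hfin : {v : Fin (N + 1) → K | ∀ i, v i ∈ {y : K | logHeight₁ y ≤ B}}.Finite := by
    have := Set.Finite.pi (fun _ : Fin (N + 1) => NumberField.finite_setOfPred_logHeight₁_le K B)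
    refine this.subset fun v hv => ?_
    rw [Set.mem_univ_pi]
    exact hv
  set f : X.Pts → (Fin (N + 1) → K) := fun P i => P.1.rep i / P.1.rep (PolEnd.idx P.1) with hf
  refine Set.Finite.of_injOn (f := f) (t := {v | ∀ i, v i ∈ {y : K | logHeight₁ y ≤ B}}) ?_ ?_ hfin
  · intro P hP i
    show logHeight₁ (P.1.rep i / P.1.rep (PolEnd.idx P.1)) ≤ B
    rw [logHeight₁_div_eq_logHeight]
    have h1 : ![P.1.rep i, P.1.rep (PolEnd.idx P.1)] = P.1.rep ∘ ![i, PolEnd.idx P.1] := by
      funext a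
      fin_cases a <;> rfl
    rw [h1]
    refine (logHeight_comp_le _ _).trans ?_
    have e2 : ht P = logHeight P.1.rep := by
      unfold ht
      conv_lhs => rw [← P.1.mk_rep]
      rw [Projectivization.logHeight_mk]
    rw [← e2]
    exact hP
  · intro P _ Q _ h
    have hP := PolEnd.rep_idx P.1
    have hQ := PolEnd.rep_idx Q.1
    refine Subtype.ext ?_
    rw [← P.1.mk_rep, ← Q.1.mk_rep, Projectivization.mk_eq_mk_iff']
    refine ⟨P.1.rep (PolEnd.idx P.1) / Q.1.rep (PolEnd.idx Q.1), ?_⟩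
    funext i
    have h1 := congrFun h i
    simp only [hf] at h1
    rw [Pi.smul_apply, smul_eq_mul]
    field_simp at h1 ⊢
    linear_combination -h1

end Pool.Agent.Lib.MP_c7b5d6_nt
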