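import Pool.Agent.Lib.MP_c7b5d6_nt.Orbit
import Pool.Agent.Lib.MP_c7b5d6_nt.Height

/-!
# Orbit intersections of polarizable endomorphisms
-/

set_option autoImplicit false

namespace Pool.Agent.Lib.MP_c7b5d6_nt

/-- a set which contains no infinite ray is a finite union of rays iff it is finite -/
theorem rayUnion_iff {S : Set (ℕ × ℕ)}
    (hS : ∀ i j k l, (∀ r : ℕ, (i + k * r, j + l * r) ∈ S) → k = 0 ∧ l = 0) :
    IsRayUnion S ↔ S.Finite := by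
  constructor
  · rintro ⟨R, hR⟩
    rw [hR]
    refine Set.Finite.biUnion R.finite_toSet fun ρ hρ => ?_
    have h1 : ∀ r : ℕ, (ρ.1 + ρ.2.2.1 * r, ρ.2.1 + ρ.2.2.2 * r) ∈ S := by
      intro r
      rw [hR, Set.mem_iUnion₂]
      exact ⟨ρ, hρ, r, rfl⟩
    obtain ⟨h2, h3⟩ := hS _ _ _ _ h1
    refine (Set.finite_singleton ((ρ.1, ρ.2.1) : ℕ × ℕ)).subset ?_
    rintro p ⟨r, rfl⟩
    rw [h2, h3]
    simp
  · intro h
    classical
    refine ⟨h.toFinset.image fun p => (p.1, p.2, 0, 0), ?_⟩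
    ext p
    rw [Set.mem_iUnion₂]
    constructor
    · intro hp
      refine ⟨(p.1, p.2, 0, 0), ?_, 0, ?_⟩
      · rw [Finset.mem_image]
        exact ⟨p, h.mem_toFinset.2 hp, rfl⟩
      · simp
    · rintro ⟨ρ, hρ, r, hr⟩
      rw [Finset.mem_image] at hρ
      obtain ⟨q, hq, rfl⟩ := hρ
      simp only [zero_mul, add_zero] at hr
      rw [hr]
      exact h.mem_toFinset.1 hq

variable {K : Type} [Field K] [NumberField K] {N : ℕ} {X : ProjVar K N} {d e : ℕ}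

theorem final_gap (hd : 1 < d) (he : 1 < e) (hind : MulIndep d e) (Φ : PolEnd X d)
    (Ψ : PolEnd X e) :
    ∃ C : ℝ, ∀ α β : X.Pts, ¬ Preper Φ.map α → ¬ Preper Ψ.map β →
      ∀ p ∈ orbitSet Φ Ψ α β, ∀ q ∈ orbitSet Φ Ψ α β, ∀ r ∈ orbitSet Φ Ψ α β,
        p.1 < q.1 → q.1 < r.1 → (d : ℝ) ^ p.1 ≤ C * r.1 := by
  obtain ⟨c, hc⟩ := ht_quasi Φ
  obtain ⟨c', hc'⟩ := ht_quasi Ψ
  obtain ⟨C, -, hC⟩ := os_gap (h := ht (X := X)) ht_northcott hd he hind hc hc'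
  exact ⟨C, hC⟩

theorem final_count (hd : 1 < d) (he : 1 < e) (hind : MulIndep d e) (Φ : PolEnd X d)
    (Ψ : PolEnd X e) :
    ∃ C : ℕ, ∀ α β : X.Pts, ¬ Preper Φ.map α → ¬ Preper Ψ.map β → ∀ T : ℕ,
      (orbitSet Φ Ψ α β ∩ {p | p.1 ≤ T ∧ p.2 ≤ T}).ncard ≤ 2 * logStar T + C := by
  obtain ⟨C, hC⟩ := final_gap hd he hind Φ Ψ
  obtain ⟨C', hC'⟩ := os_count (T := X.Pts) hd C
  exact ⟨C', fun α β hα hβ => hC' _ _ α β hβ (hC α β hα hβ)⟩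

theorem final_rays (hd : 1 < d) (he : 1 < e) (hind : MulIndep d e) (Φ : PolEnd X d)
    (Ψ : PolEnd X e) (α β : X.Pts) (hα : ¬ Preper Φ.map α) (hβ : ¬ Preper Ψ.map β) :
    IsRayUnion (orbitSet Φ Ψ α β) ↔ (orbitSet Φ Ψ α β).Finite := by
  obtain ⟨C, hC⟩ := final_gap hd he hind Φ Ψ
  exact rayUnion_iff fun i j k l h => os_no_ray hβ hd (hC α β hα hβ) i j k l h

theorem final_rev (hd : 1 < d) (he : 1 < e) (hind : MulIndep d e) (Φ : PolEnd X d)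
    (Ψ : PolEnd X e) (h : CommonMult Φ.map Ψ.map) (α β : X.Pts) (hα : ¬ Preper Φ.map α) :
    (orbitSet Φ Ψ α β).Subsingleton := by
  obtain ⟨c, hc⟩ := ht_quasi Φ
  obtain ⟨c', hc'⟩ := ht_quasi Ψ
  exact os_rev (h := ht (X := X)) ht_northcott hd he hind hc hc' hα h

end Pool.Agent.Lib.MP_c7b5d6_nt
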