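import Pool.Agent.Lib.MP_c7b5d6_nt.Defs

/-!
# The gap principle

`S` is a set of pairs `(m, n)` of natural numbers with `|d ^ m * A - e ^ n * B| ≤ C`, where
`A, B > 0` are real and `d, e ≥ 2` are multiplicatively independent integers. For three members of
`S` with increasing first coordinates `x₁ < x₂ < x₃` we show `d ^ x₁ ≤ C' * x₃`.
-/

set_option autoImplicit false

namespace Pool.Agent.Lib.MP_c7b5d6_nt

theorem gap_log_ratio {D E C : ℝ} (hD : 0 < D) (hC : 0 ≤ C) (h : |D - E| ≤ C) (hDC : 4 * C ≤ D) :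
    0 < E ∧ |Real.log D - Real.log E| ≤ 2 * C / D := by
  have h1 := abs_le.1 h
  have hE : 3 / 4 * D ≤ E := by linarith
  have hE0 : 0 < E := by linarith
  refine ⟨hE0, ?_⟩
  rw [← Real.log_div hD.ne' hE0.ne', abs_le]
  have h2 := Real.log_le_sub_one_of_pos (div_pos hD hE0)
  have h3 := Real.one_sub_inv_le_log_of_pos (div_pos hD hE0)
  constructor
  · refine le_trans ?_ h3
    have : 1 - (D / E)⁻¹ = (D - E) / D := by
      rw [inv_div]
      field_simp
    rw [this, neg_le_iff_add_nonneg, ← add_div]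
    exact div_nonneg (by linarith) hD.le
  · refine h2.trans ?_
    have : D / E - 1 = (D - E) / E := by field_simp
    rw [this, div_le_div_iff₀ hE0 hD]
    nlinarith

/-- `|a log d - b log e|` for different powers. -/
theorem gap_lower {u w : ℕ} (hu : 0 < u) (hw : 0 < w) (h : u ≠ w) :
    1 / (2 * (u : ℝ)) ≤ |Real.log u - Real.log w| := by
  have hu' : (1 : ℝ) ≤ u := by exact_mod_cast hu
  have hw' : (1 : ℝ) ≤ w := by exact_mod_cast hw
  rcases lt_or_gt_of_ne h with h1 | h1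
  · have h2 : (u : ℝ) + 1 ≤ w := by exact_mod_cast h1
    have h3 := Real.one_sub_inv_le_log_of_pos (show (0 : ℝ) < (w : ℝ) / u by positivity)
    rw [Real.log_div (by positivity) (by positivity), inv_div] at h3
    rw [abs_sub_comm]
    refine le_trans ?_ ((h3).trans (le_abs_self _))
    have : (u : ℝ) / w ≤ u / (u + 1) := by
      apply div_le_div_of_nonneg_left (by linarith) (by linarith) h2
    have h4 : 1 - (u : ℝ) / (u + 1) = 1 / (u + 1) := by field_simp; ring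
    have h5 : 1 / (2 * (u : ℝ)) ≤ 1 / (u + 1) := by
      apply one_div_le_one_div_of_le (by linarith) (by linarith)
    linarith
  · have h2 : (w : ℝ) + 1 ≤ u := by exact_mod_cast h1
    have h3 := Real.one_sub_inv_le_log_of_pos (show (0 : ℝ) < (u : ℝ) / w by positivity)
    rw [Real.log_div (by positivity) (by positivity), inv_div] at h3
    refine le_trans ?_ ((h3).trans (le_abs_self _))
    have h4 : 1 - (w : ℝ) / u = (u - w) / u := by field_simp
    rw [h4, div_le_div_iff₀ (by linarith) (by linarith)]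
    nlinarith

/-- The gap principle for three solutions; the constant is uniform for `A ≥ A₀`. -/
theorem gap_three {d e : ℕ} (hd : 2 ≤ d) (he : 2 ≤ e) (hind : MulIndep d e) {A₀ C : ℝ}
    (hA₀ : 0 < A₀) (hC : 0 ≤ C) :
    ∃ C' : ℝ, 0 < C' ∧ ∀ A B : ℝ, A₀ ≤ A → 0 < B → ∀ x₁ y₁ x₂ y₂ x₃ y₃ : ℕ,
      |(d : ℝ) ^ x₁ * A - (e : ℝ) ^ y₁ * B| ≤ C →
      |(d : ℝ) ^ x₂ * A - (e : ℝ) ^ y₂ * B| ≤ C → |(d : ℝ) ^ x₃ * A - (e : ℝ) ^ y₃ * B| ≤ C →
      x₁ < x₂ → x₂ < x₃ → (d : ℝ) ^ x₁ ≤ C' * x₃ := by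
  have hd' : (2 : ℝ) ≤ d := by exact_mod_cast hd
  have he' : (2 : ℝ) ≤ e := by exact_mod_cast he
  have hle : 0 < Real.log e := Real.log_pos (by linarith)
  have hC8 : 0 ≤ 8 * C / A₀ := by positivity
  have hC9 : 0 ≤ 8 * C / (A₀ * Real.log e) := by positivity
  refine ⟨8 * C / A₀ + 8 * C / (A₀ * Real.log e) + 1, by positivity, ?_⟩
  intro A B hAA hB
  have hA : 0 < A := hA₀.trans_le hAA
  set Q : ℝ := 8 * C / A₀ + 8 * C / (A₀ * Real.log e) + 1 with hQ
  have hQ1 : 8 * C / A ≤ Q := by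
    have : 8 * C / A ≤ 8 * C / A₀ := div_le_div_of_nonneg_left (by positivity) hA₀ hAA
    linarith
  have hQ2 : 8 * C / (A * Real.log e) ≤ Q := by
    have : 8 * C / (A * Real.log e) ≤ 8 * C / (A₀ * Real.log e) :=
      div_le_div_of_nonneg_left (by positivity) (by positivity)
        (mul_le_mul_of_nonneg_right hAA hle.le)
    linarith
  intro x₁ y₁ x₂ y₂ x₃ y₃ h1 h2 h3 h12 h23
  have hx3 : (1 : ℝ) ≤ x₃ := by exact_mod_cast (by omega : 1 ≤ x₃)
  have hpos : ∀ x : ℕ, (0 : ℝ) < (d : ℝ) ^ x := fun x => by positivity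
  have hepos : ∀ x : ℕ, (0 : ℝ) < (e : ℝ) ^ x := fun x => by positivity
  -- it is enough to have the bound by a constant
  have hconst : (d : ℝ) ^ x₁ ≤ 8 * C / A → (d : ℝ) ^ x₁ ≤ Q * x₃ := by
    intro h
    have : (d : ℝ) ^ x₁ ≤ Q := h.trans hQ1
    have hQ0 : 0 ≤ Q := le_trans (by positivity) this
    nlinarith
  by_cases hbig : (d : ℝ) ^ x₁ * A ≤ 4 * C
  · refine hconst ?_
    rw [le_div_iff₀ hA]
    linarith
  push Not at hbig
  have hmono : ∀ {x x' : ℕ}, x ≤ x' → (d : ℝ) ^ x ≤ (d : ℝ) ^ x' := fun h =>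
    pow_le_pow_right₀ (by linarith) h
  have hb2 : 4 * C ≤ (d : ℝ) ^ x₂ * A := hbig.le.trans
    (mul_le_mul_of_nonneg_right (hmono h12.le) hA.le)
  have hb3 : 4 * C ≤ (d : ℝ) ^ x₃ * A := hb2.trans
    (mul_le_mul_of_nonneg_right (hmono h23.le) hA.le)
  -- the logarithms
  have hlog : ∀ x y : ℕ, |(d : ℝ) ^ x * A - (e : ℝ) ^ y * B| ≤ C → 4 * C ≤ (d : ℝ) ^ x * A →
      |(x * Real.log d + Real.log A) - (y * Real.log e + Real.log B)| ≤
        2 * C / ((d : ℝ) ^ x * A) := by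
    intro x y h h'
    have := (gap_log_ratio (mul_pos (hpos x) hA) hC h h').2
    rwa [Real.log_mul (hpos x).ne' hA.ne', Real.log_mul (hepos y).ne' hB.ne', Real.log_pow,
      Real.log_pow] at this
  have t1 := hlog x₁ y₁ h1 hbig.le
  have t2 := hlog x₂ y₂ h2 hb2
  have t3 := hlog x₃ y₃ h3 hb3
  have hτ : ∀ {x x' : ℕ}, x ≤ x' → 2 * C / ((d : ℝ) ^ x' * A) ≤ 2 * C / ((d : ℝ) ^ x * A) := by
    intro x x' h
    apply div_le_div_of_nonneg_left (by positivity) (mul_pos (hpos x) hA)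
    exact mul_le_mul_of_nonneg_right (hmono h) hA.le
  have hτ12 := hτ h12.le
  have hτ23 := hτ h23.le
  -- monotonicity of the second coordinates
  have hymono : ∀ x y x' y' : ℕ, |(d : ℝ) ^ x * A - (e : ℝ) ^ y * B| ≤ C →
      |(d : ℝ) ^ x' * A - (e : ℝ) ^ y' * B| ≤ C → 4 * C ≤ (d : ℝ) ^ x * A → x < x' → y < y' := by
    intro x y x' y' ha hb hc hlt
    have e1 : 2 * (d : ℝ) ^ x ≤ (d : ℝ) ^ x' := by
      calc 2 * (d : ℝ) ^ x ≤ d * (d : ℝ) ^ x := mul_le_mul_of_nonneg_right hd' (hpos x).le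
        _ = (d : ℝ) ^ (x + 1) := by ring
        _ ≤ _ := hmono hlt
    have ha' := abs_le.1 ha
    have hb' := abs_le.1 hb
    have hA' : 2 * ((d : ℝ) ^ x * A) ≤ (d : ℝ) ^ x' * A := by nlinarith
    have hpa := mul_pos (hpos x) hA
    have e2 : (e : ℝ) ^ y * B < (e : ℝ) ^ y' * B := by linarith
    have e3 : (e : ℝ) ^ y < (e : ℝ) ^ y' := lt_of_mul_lt_mul_right e2 hB.le
    exact (pow_lt_pow_iff_right₀ (by linarith)).1 e3
  have hy12 := hymono _ _ _ _ h1 h2 hbig.le h12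
  have hy23 := hymono _ _ _ _ h2 h3 hb2 h23
  obtain ⟨a, rfl⟩ := Nat.exists_eq_add_of_lt h12
  obtain ⟨a', rfl⟩ := Nat.exists_eq_add_of_lt h23
  obtain ⟨b, rfl⟩ := Nat.exists_eq_add_of_lt hy12
  obtain ⟨b', rfl⟩ := Nat.exists_eq_add_of_lt hy23
  set ld := Real.log d
  set le := Real.log e
  set τ : ℝ := 2 * C / ((d : ℝ) ^ x₁ * A) with hτdef
  set τ' : ℝ := 2 * C / ((d : ℝ) ^ (x₁ + a + 1) * A) with hτ'def
  push_cast at t1 t2 t3
  -- differences
  have ta := abs_le.1 t1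
  have tb := abs_le.1 t2
  have tc := abs_le.1 t3
  have s1 : |((a : ℝ) + 1) * ld - (b + 1) * le| ≤ 2 * τ := by
    rw [abs_le]
    constructor <;> nlinarith
  have s2 : |((a' : ℝ) + 1) * ld - (b' + 1) * le| ≤ 2 * τ' := by
    rw [abs_le]
    constructor <;> nlinarith
  have hττ : τ' ≤ τ := hτ12
  have hfin : ∀ a₀ b₀ : ℕ, a₀ ≤ a → |((a₀ : ℝ) + 1) * ld - (b₀ + 1) * le| ≤ 2 * τ' →
      (d : ℝ) ^ x₁ ≤ 8 * C / A := by
    intro a₀ b₀ ha₀ hs
    have hne : d ^ (a₀ + 1) ≠ e ^ (b₀ + 1) := by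
      intro h
      have := (hind _ _ h).1
      omega
    have h4 := gap_lower (Nat.pow_pos (by omega)) (Nat.pow_pos (by omega)) hne
    push_cast at h4
    rw [Real.log_pow, Real.log_pow] at h4
    push_cast at h4
    have h5 := h4.trans hs
    have hu : (d : ℝ) ^ (a₀ + 1) ≤ (d : ℝ) ^ (a + 1) := hmono (by omega)
    have hu0 := hpos (a₀ + 1)
    have hx2 : (d : ℝ) ^ (x₁ + a + 1) = (d : ℝ) ^ x₁ * (d : ℝ) ^ (a + 1) := by ring
    rw [hτ'def, show 2 * (2 * C / ((d : ℝ) ^ (x₁ + a + 1) * A)) =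
      (4 * C) / ((d : ℝ) ^ (x₁ + a + 1) * A) by ring,
      div_le_div_iff₀ (by positivity) (by positivity), one_mul, hx2] at h5
    rw [le_div_iff₀ hA]
    have h6 : (d : ℝ) ^ x₁ * A * (d : ℝ) ^ (a + 1) ≤ 8 * C * (d : ℝ) ^ (a + 1) := by
      have : 4 * C * (2 * (d : ℝ) ^ (a₀ + 1)) ≤ 8 * C * (d : ℝ) ^ (a + 1) := by nlinarith
      linarith
    exact le_of_mul_le_mul_right h6 (hpos _)
  by_cases hΔ : (a + 1) * (b' + 1) = (a' + 1) * (b + 1)
  · refine hconst ?_
    have hΔ' : ((a : ℝ) + 1) * (b' + 1) = (a' + 1) * (b + 1) := by exact_mod_cast hΔ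
    rcases Nat.lt_or_ge a a' with hlt | hge
    · refine hfin a b le_rfl ?_
      have hlt' : (a : ℝ) + 1 ≤ a' := by exact_mod_cast hlt
      have e1 : ((a' : ℝ) + 1) * (((a : ℝ) + 1) * ld - (b + 1) * le) =
          (a + 1) * (((a' : ℝ) + 1) * ld - (b' + 1) * le) := by linear_combination le * hΔ'
      have e2 := congrArg abs e1
      rw [abs_mul, abs_mul, abs_of_nonneg (by positivity : (0 : ℝ) ≤ (a' : ℝ) + 1),
        abs_of_nonneg (by positivity : (0 : ℝ) ≤ (a : ℝ) + 1)] at e2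
      have e3 : ((a' : ℝ) + 1) * |((a : ℝ) + 1) * ld - (b + 1) * le| ≤ (a' + 1) * (2 * τ') := by
        rw [e2]
        exact mul_le_mul (by linarith) s2 (abs_nonneg _) (by positivity)
      exact le_of_mul_le_mul_left e3 (by positivity)
    · exact hfin a' b' hge s2
  · have hΔ' : ((a : ℤ) + 1) * (b' + 1) - (a' + 1) * (b + 1) ≠ 0 := by
      intro h
      apply hΔ
      have : ((a : ℤ) + 1) * (b' + 1) = (a' + 1) * (b + 1) := by linarith
      exact_mod_cast this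
    have hΔ1 : (1 : ℝ) ≤ |((a : ℝ) + 1) * (b' + 1) - (a' + 1) * (b + 1)| := by
      have := Int.one_le_abs hΔ'
      exact_mod_cast this
    have e1 : (((a : ℝ) + 1) * (b' + 1) - (a' + 1) * (b + 1)) * le =
        (a' + 1) * (((a : ℝ) + 1) * ld - (b + 1) * le) -
          (a + 1) * (((a' : ℝ) + 1) * ld - (b' + 1) * le) := by ring
    have e2 := congrArg abs e1
    rw [abs_mul, abs_of_pos hle] at e2
    have e3 : le ≤ (a' + 1) * (2 * τ) + (a + 1) * (2 * τ) := by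
      calc le = 1 * le := (one_mul _).symm
        _ ≤ |((a : ℝ) + 1) * (b' + 1) - (a' + 1) * (b + 1)| * le :=
          mul_le_mul_of_nonneg_right hΔ1 hle.le
        _ = _ := e2
        _ ≤ |(a' + 1) * (((a : ℝ) + 1) * ld - (b + 1) * le)| +
          |(a + 1) * (((a' : ℝ) + 1) * ld - (b' + 1) * le)| := abs_sub _ _
        _ ≤ _ := by
          rw [abs_mul, abs_mul, abs_of_nonneg (by positivity : (0 : ℝ) ≤ (a' : ℝ) + 1),
            abs_of_nonneg (by positivity : (0 : ℝ) ≤ (a : ℝ) + 1)]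
          refine add_le_add ?_ ?_
          · exact mul_le_mul_of_nonneg_left s1 (by positivity)
          · exact mul_le_mul_of_nonneg_left (by linarith) (by positivity)
    have hτ0 : 0 ≤ τ := by positivity
    set X3 : ℝ := ((x₁ + a + 1 + a' + 1 : ℕ) : ℝ) with hX3
    have e4 : le ≤ 2 * τ * X3 := by
      refine e3.trans ?_
      rw [hX3]
      push_cast
      have : (0 : ℝ) ≤ x₁ := by positivity
      nlinarith
    rw [hτdef, show 2 * (2 * C / ((d : ℝ) ^ x₁ * A)) * X3 =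
      (4 * C * X3) / ((d : ℝ) ^ x₁ * A) by ring, le_div_iff₀ (by positivity)] at e4
    have e5 : (d : ℝ) ^ x₁ ≤ 4 * C / (A * le) * X3 := by
      rw [div_mul_eq_mul_div, le_div_iff₀ (by positivity)]
      linarith
    refine e5.trans ?_
    have : 4 * C / (A * le) ≤ Q := by
      have h6 : 4 * C / (A * le) ≤ 8 * C / (A * le) := by
        apply div_le_div_of_nonneg_right _ (by positivity)
        linarith
      exact h6.trans hQ2
    exact mul_le_mul_of_nonneg_right this (by positivity)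

end Pool.Agent.Lib.MP_c7b5d6_nt
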