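import Pool.Agent.Lib.MP_c7b5d6_nt.Canon

/-!
# Semigroups with common left multiples

`f` and `g` multiply the same height by `δ` and by `ε`. If for arbitrarily large `j` there are words
`v`, `w` in `f` and `g` with `v ∘ f^j = w ∘ g^j`, then the canonical heights of `f` and `g` coincide.
-/

set_option autoImplicit false

namespace Pool.Agent.Lib.MP_c7b5d6_nt

variable {T : Type*} {h : T → ℝ}

/-- the degree of a word -/
def wordDeg (δ ε : ℝ) : List Bool → ℝ
  | [] => 1
  | b :: w => (if b then δ else ε) * wordDeg δ ε w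

theorem one_le_wordDeg {δ ε : ℝ} (hδ : 2 ≤ δ) (hε : 2 ≤ ε) (w : List Bool) :
    1 ≤ wordDeg δ ε w := by
  induction w with
  | nil => exact le_rfl
  | cons b w ih =>
    show 1 ≤ (if b then δ else ε) * wordDeg δ ε w
    have h1 : 1 ≤ (if b then δ else ε) := by
      split_ifs <;> linarith
    nlinarith

theorem word_quasi {f g : T → T} {δ ε c : ℝ} (hδ : 2 ≤ δ) (hε : 2 ≤ ε)
    (hf : ∀ x, |h (f x) - δ * h x| ≤ c) (hg : ∀ x, |h (g x) - ε * h x| ≤ c) (w : List Bool) (x : T) :
    |h (wordMap f g w x) - wordDeg δ ε w * h x| ≤ c * (wordDeg δ ε w - 1) := by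
  have hc : 0 ≤ c := (abs_nonneg _).trans (hf x)
  induction w with
  | nil =>
    show |h x - 1 * h x| ≤ c * (1 - 1)
    simp
  | cons b w ih =>
    have h1 := one_le_wordDeg hδ hε w
    have key : ∀ (u : T → T) (η : ℝ), 2 ≤ η → (∀ x, |h (u x) - η * h x| ≤ c) →
        |h (u (wordMap f g w x)) - η * wordDeg δ ε w * h x| ≤ c * (η * wordDeg δ ε w - 1) := by
      intro u η hη hu
      have e : h (u (wordMap f g w x)) - η * wordDeg δ ε w * h x =
          (h (u (wordMap f g w x)) - η * h (wordMap f g w x)) +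
            η * (h (wordMap f g w x) - wordDeg δ ε w * h x) := by ring
      rw [e]
      have h2 : |η * (h (wordMap f g w x) - wordDeg δ ε w * h x)| ≤
          η * (c * (wordDeg δ ε w - 1)) := by
        rw [abs_mul, abs_of_nonneg (by linarith : 0 ≤ η)]
        exact mul_le_mul_of_nonneg_left ih (by linarith)
      refine (abs_add_le _ _).trans ((add_le_add (hu _) h2).trans ?_)
      nlinarith
    cases b with
    | true =>
      show |h (f (wordMap f g w x)) - δ * wordDeg δ ε w * h x| ≤ c * (δ * wordDeg δ ε w - 1)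
      exact key f δ hδ hf
    | false =>
      show |h (g (wordMap f g w x)) - ε * wordDeg δ ε w * h x| ≤ c * (ε * wordDeg δ ε w - 1)
      exact key g ε hε hg

/-- If `f^j` and `g^j` have common left multiples for arbitrarily large `j` then the canonical
heights of `f` and `g` coincide. -/
theorem can_rev (hN : ∀ B : ℝ, {x : T | h x ≤ B}.Finite) {f g : T → T} {δ ε c₁ c₂ : ℝ}
    (hδ : 2 ≤ δ) (hε : 2 ≤ ε) (hf : ∀ x, |h (f x) - δ * h x| ≤ c₁)
    (hg : ∀ x, |h (g x) - ε * h x| ≤ c₂) (hfg : CommonMult f g) {x₀ : T} (hx₀ : ¬ Preper f x₀)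
    {x : T} {A B : ℝ} (hA : IsCan h f δ x A) (hB : IsCan h g ε x B) : A = B := by
  set c := max c₁ c₂ with hc
  have hf' : ∀ x, |h (f x) - δ * h x| ≤ c := fun x => (hf x).trans (le_max_left _ _)
  have hg' : ∀ x, |h (g x) - ε * h x| ≤ c := fun x => (hg x).trans (le_max_right _ _)
  have hc0 : 0 ≤ c := (abs_nonneg _).trans (hf' x)
  obtain ⟨A', hA'⟩ := exists_can hδ hf' x
  obtain ⟨B', hB'⟩ := exists_can hε hg' x
  rw [IsCan.unique (by linarith) hA ⟨c, hA'⟩, IsCan.unique (by linarith) hB ⟨c, hB'⟩]
  -- the height is unbounded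
  obtain ⟨A₀, hA₀⟩ := exists_can hδ hf' x₀
  have hA₀pos : 0 < A₀ := can_pos hN (by linarith) ⟨c, hA₀⟩ hx₀
  have hunb : ∀ b : ℝ, ∃ y : T, b < h y := by
    intro b
    obtain ⟨k, hk⟩ := pow_unbounded_of_one_lt ((b + c) / A₀) (by linarith : 1 < δ)
    refine ⟨f^[k] x₀, ?_⟩
    rw [div_lt_iff₀ hA₀pos] at hk
    have := (abs_le.1 (hA₀ k)).1
    linarith
  have main : ∀ j₀ : ℕ, |A' - B'| ≤ 4 * c / 2 ^ j₀ := by
    intro j₀
    obtain ⟨j, hj, v, w, hvw⟩ := hfg j₀
    set V := wordDeg δ ε v with hV
    set W := wordDeg δ ε w with hW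
    have hV1 : 1 ≤ V := one_le_wordDeg hδ hε v
    have hW1 : 1 ≤ W := one_le_wordDeg hδ hε w
    have hδj : (2 : ℝ) ^ j ≤ δ ^ j := pow_le_pow_left₀ (by norm_num) hδ j
    have hεj : (2 : ℝ) ^ j ≤ ε ^ j := pow_le_pow_left₀ (by norm_num) hε j
    have h2j : (0 : ℝ) < 2 ^ j := by positivity
    have qv := fun y => word_quasi hδ hε hf' hg' v y
    have qw := fun y => word_quasi hδ hε hf' hg' w y
    -- the degrees agree
    obtain ⟨cf, hcf⟩ := iter_quasi (by linarith) hf' j
    obtain ⟨cg, hcg⟩ := iter_quasi (by linarith) hg' j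
    have hdeg : V * δ ^ j = W * ε ^ j := by
      by_contra hne
      have hpos : 0 < |V * δ ^ j - W * ε ^ j| := abs_pos.2 (sub_ne_zero.2 hne)
      set E := c * (V - 1) + V * cf + (c * (W - 1) + W * cg) with hE
      obtain ⟨y, hy⟩ := hunb (E / |V * δ ^ j - W * ε ^ j|)
      rw [div_lt_iff₀ hpos] at hy
      have b1 : |h (wordMap f g v (f^[j] y)) - V * δ ^ j * h y| ≤ c * (V - 1) + V * cf := by
        have e : h (wordMap f g v (f^[j] y)) - V * δ ^ j * h y =
            (h (wordMap f g v (f^[j] y)) - V * h (f^[j] y)) +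
              V * (h (f^[j] y) - δ ^ j * h y) := by ring
        rw [e]
        refine (abs_add_le _ _).trans (add_le_add (qv _) ?_)
        rw [abs_mul, abs_of_nonneg (by linarith : 0 ≤ V)]
        exact mul_le_mul_of_nonneg_left (hcf y) (by linarith)
      have b2 : |h (wordMap f g w (g^[j] y)) - W * ε ^ j * h y| ≤ c * (W - 1) + W * cg := by
        have e : h (wordMap f g w (g^[j] y)) - W * ε ^ j * h y =
            (h (wordMap f g w (g^[j] y)) - W * h (g^[j] y)) +
              W * (h (g^[j] y) - ε ^ j * h y) := by ring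
        rw [e]
        refine (abs_add_le _ _).trans (add_le_add (qw _) ?_)
        rw [abs_mul, abs_of_nonneg (by linarith : 0 ≤ W)]
        exact mul_le_mul_of_nonneg_left (hcg y) (by linarith)
      rw [hvw y] at b1
      have b3 : |V * δ ^ j - W * ε ^ j| * h y ≤ E := by
        have e : (V * δ ^ j - W * ε ^ j) * h y =
            (h (wordMap f g w (g^[j] y)) - W * ε ^ j * h y) -
              (h (wordMap f g w (g^[j] y)) - V * δ ^ j * h y) := by ring
        have b4 : |(V * δ ^ j - W * ε ^ j) * h y| ≤ E := by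
          rw [e]
          refine (abs_sub _ _).trans ?_
          rw [hE]
          linarith
        refine le_trans ?_ b4
        rw [abs_mul]
        exact mul_le_mul_of_nonneg_left (le_abs_self _) (abs_nonneg _)
      linarith
    -- comparison at `x`
    have b1 : |h (wordMap f g v (f^[j] x)) - V * δ ^ j * A'| ≤ 2 * c * V := by
      have e : h (wordMap f g v (f^[j] x)) - V * δ ^ j * A' =
          (h (wordMap f g v (f^[j] x)) - V * h (f^[j] x)) +
            V * (h (f^[j] x) - δ ^ j * A') := by ring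
      rw [e]
      have h3 : |V * (h (f^[j] x) - δ ^ j * A')| ≤ V * c := by
        rw [abs_mul, abs_of_nonneg (by linarith : 0 ≤ V)]
        exact mul_le_mul_of_nonneg_left (hA' j) (by linarith)
      refine (abs_add_le _ _).trans ((add_le_add (qv _) h3).trans ?_)
      nlinarith
    have b2 : |h (wordMap f g w (g^[j] x)) - W * ε ^ j * B'| ≤ 2 * c * W := by
      have e : h (wordMap f g w (g^[j] x)) - W * ε ^ j * B' =
          (h (wordMap f g w (g^[j] x)) - W * h (g^[j] x)) +
            W * (h (g^[j] x) - ε ^ j * B') := by ring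
      rw [e]
      have h3 : |W * (h (g^[j] x) - ε ^ j * B')| ≤ W * c := by
        rw [abs_mul, abs_of_nonneg (by linarith : 0 ≤ W)]
        exact mul_le_mul_of_nonneg_left (hB' j) (by linarith)
      refine (abs_add_le _ _).trans ((add_le_add (qw _) h3).trans ?_)
      nlinarith
    rw [hvw x] at b1
    set D := V * δ ^ j with hD
    rw [← hdeg] at b2
    have hDpos : 0 < D := by positivity
    have b3 : D * |A' - B'| ≤ 2 * c * V + 2 * c * W := by
      have e : D * |A' - B'| = |(h (wordMap f g w (g^[j] x)) - D * B') -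
          (h (wordMap f g w (g^[j] x)) - D * A')| := by
        rw [← abs_of_pos hDpos, ← abs_mul, abs_of_pos hDpos]
        congr 1
        ring
      rw [e]
      refine (abs_sub _ _).trans ?_
      linarith
    have hVD : V * 2 ^ j ≤ D := mul_le_mul_of_nonneg_left hδj (by linarith)
    have hWD : W * 2 ^ j ≤ D := by
      rw [hdeg]
      exact mul_le_mul_of_nonneg_left hεj (by linarith)
    have b4 : |A' - B'| ≤ 4 * c / 2 ^ j := by
      rw [le_div_iff₀ h2j]
      have h5 : D * (|A' - B'| * 2 ^ j) ≤ D * (4 * c) := by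
        calc D * (|A' - B'| * 2 ^ j) = (D * |A' - B'|) * 2 ^ j := by ring
          _ ≤ (2 * c * V + 2 * c * W) * 2 ^ j := mul_le_mul_of_nonneg_right b3 h2j.le
          _ = 2 * c * (V * 2 ^ j) + 2 * c * (W * 2 ^ j) := by ring
          _ ≤ 2 * c * D + 2 * c * D := add_le_add (mul_le_mul_of_nonneg_left hVD (by linarith))
            (mul_le_mul_of_nonneg_left hWD (by linarith))
          _ = D * (4 * c) := by ring
      exact le_of_mul_le_mul_left h5 hDpos
    refine b4.trans (div_le_div_of_nonneg_left (by linarith) (by positivity) ?_)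
    exact pow_le_pow_right₀ (by norm_num) hj
  by_contra hne
  have hpos : 0 < |A' - B'| := abs_pos.2 (sub_ne_zero.2 hne)
  obtain ⟨k, hk⟩ := pow_unbounded_of_one_lt (4 * c / |A' - B'|) (by norm_num : (1 : ℝ) < 2)
  have h1 := main k
  rw [div_lt_iff₀ hpos] at hk
  rw [le_div_iff₀ (by positivity)] at h1
  linarith

theorem wordMap_replicate (f g : T → T) (b : Bool) (j : ℕ) (x : T) :
    wordMap f g (List.replicate j b) x = (if b then f else g)^[j] x := by
  induction j with
  | zero => rfl
  | succ j ih =>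
    rw [List.replicate_succ, Function.iterate_succ_apply', ← ih]
    rfl

/-- If some iterates of `f` and `g` commute then `f^j` and `g^j` have common left multiples. -/
theorem commonMult_of_comm {f g : T → T} {a b : ℕ} (ha : 1 ≤ a) (hb : 1 ≤ b)
    (hab : ∀ x, f^[a] (g^[b] x) = g^[b] (f^[a] x)) : CommonMult f g := by
  intro j₀
  refine ⟨a * b * j₀, Nat.le_mul_of_pos_left _ (Nat.mul_pos ha hb),
    List.replicate (a * b * j₀) false, List.replicate (a * b * j₀) true, fun x => ?_⟩
  rw [wordMap_replicate, wordMap_replicate]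
  have hc : Function.Commute (f^[a]) (g^[b]) := hab
  have h1 := (hc.iterate_iterate (b * j₀) (a * j₀)) x
  rw [← Function.iterate_mul, ← Function.iterate_mul] at h1
  have e1 : a * (b * j₀) = a * b * j₀ := by ring
  have e2 : b * (a * j₀) = a * b * j₀ := by ring
  rw [e1, e2] at h1
  exact h1.symm

end Pool.Agent.Lib.MP_c7b5d6_nt
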