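import Pool.Agent.Lib.MP_c7b5d6_nt.Gap
import Pool.Agent.Lib.MP_c7b5d6_nt.Count
import Pool.Agent.Lib.MP_c7b5d6_nt.Words

/-!
# Orbit intersections for two maps which multiply the same height by `d` and by `e`
-/

set_option autoImplicit false

namespace Pool.Agent.Lib.MP_c7b5d6_nt

variable {T : Type*}

/-- the set of the pairs `(m, n)` with `f^m x = g^n y` -/
def OS (f g : T → T) (x y : T) : Set (ℕ × ℕ) := {p | f^[p.1] x = g^[p.2] y}

theorem os_fst_inj {f g : T → T} {x y : T} (hy : ¬ Preper g y) :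
    Set.InjOn Prod.fst (OS f g x y) := by
  intro p hp q hq h
  rw [Preper.iff_not_injective, not_not] at hy
  refine Prod.ext h (hy ?_)
  show g^[p.2] y = g^[q.2] y
  have h1 : f^[p.1] x = g^[p.2] y := hp
  have h2 : f^[q.1] x = g^[q.2] y := hq
  rw [← h1, ← h2, h]

variable {h : T → ℝ}

theorem os_gap (hN : ∀ B : ℝ, {x : T | h x ≤ B}.Finite) {f g : T → T} {d e : ℕ} (hd : 2 ≤ d)
    (he : 2 ≤ e) (hind : MulIndep d e) {c c' : ℝ} (hf : ∀ x, |h (f x) - d * h x| ≤ c)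
    (hg : ∀ x, |h (g x) - e * h x| ≤ c') :
    ∃ C : ℝ, 0 < C ∧ ∀ x y, ¬ Preper f x → ¬ Preper g y → ∀ p ∈ OS f g x y,
      ∀ q ∈ OS f g x y, ∀ r ∈ OS f g x y, p.1 < q.1 → q.1 < r.1 →
      (d : ℝ) ^ p.1 ≤ C * r.1 := by
  have hd' : (2 : ℝ) ≤ d := by exact_mod_cast hd
  have he' : (2 : ℝ) ≤ e := by exact_mod_cast he
  obtain ⟨A₀, hA₀, hlow⟩ := can_lower hN hd' hf
  by_cases hT : Nonempty T
  swap
  · exact ⟨1, one_pos, fun x => (hT ⟨x⟩).elim⟩
  obtain ⟨z⟩ := hT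
  have hc : 0 ≤ c := (abs_nonneg _).trans (hf z)
  have hc' : 0 ≤ c' := (abs_nonneg _).trans (hg z)
  obtain ⟨C, hC0, hC⟩ := gap_three hd he hind hA₀ (add_nonneg hc hc')
  refine ⟨C, hC0, fun x y hx hy => ?_⟩
  obtain ⟨A, hA⟩ := exists_can hd' hf x
  obtain ⟨B, hB⟩ := exists_can he' hg y
  have hA0 : A₀ ≤ A := hlow x A hx ⟨c, hA⟩
  have hB0 : 0 < B := can_pos hN (by linarith) ⟨c', hB⟩ hy
  have key : ∀ p ∈ OS f g x y, |(d : ℝ) ^ p.1 * A - (e : ℝ) ^ p.2 * B| ≤ c + c' := by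
    intro p hp
    have h1 : f^[p.1] x = g^[p.2] y := hp
    have h2 := hA p.1
    have h3 := hB p.2
    rw [h1] at h2
    have e1 : (d : ℝ) ^ p.1 * A - (e : ℝ) ^ p.2 * B =
        (h (g^[p.2] y) - (e : ℝ) ^ p.2 * B) - (h (g^[p.2] y) - (d : ℝ) ^ p.1 * A) := by ring
    rw [e1, add_comm c c']
    exact (abs_sub _ _).trans (add_le_add h3 h2)
  exact fun p hp q hq r hr hpq hqr =>
    hC A B hA0 hB0 p.1 p.2 q.1 q.2 r.1 r.2 (key p hp) (key q hq) (key r hr) hpq hqr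

theorem os_count {d : ℕ} (hd : 2 ≤ d) (C : ℝ) : ∃ C' : ℕ, ∀ (f g : T → T) (x y : T),
    ¬ Preper g y → (∀ p ∈ OS f g x y, ∀ q ∈ OS f g x y, ∀ r ∈ OS f g x y, p.1 < q.1 →
      q.1 < r.1 → (d : ℝ) ^ p.1 ≤ C * r.1) →
    ∀ N : ℕ, (OS f g x y ∩ {p | p.1 ≤ N ∧ p.2 ≤ N}).ncard ≤ 2 * logStar N + C' := by
  have hd' : (2 : ℝ) ≤ d := by exact_mod_cast hd
  obtain ⟨C', hC'⟩ := count_logStar C
  refine ⟨C', fun f g x y hy hC N => (?_ : _ ≤ _).trans (hC' (Prod.fst '' OS f g x y) (by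
    rintro _ ⟨p, hp, rfl⟩ _ ⟨q, hq, rfl⟩ _ ⟨r, hr, rfl⟩ hpq hqr
    exact (pow_le_pow_left₀ (by norm_num) hd' _).trans (hC p hp q hq r hr hpq hqr)) N)⟩
  refine Set.ncard_le_ncard_of_injOn Prod.fst ?_ ?_ ?_
  · rintro p ⟨hp, hp1, -⟩
    exact ⟨⟨p, hp, rfl⟩, hp1⟩
  · exact (os_fst_inj hy).mono Set.inter_subset_left
  · exact (Set.finite_le_nat N).subset Set.inter_subset_right

theorem os_no_ray {f g : T → T} {x y : T} (hy : ¬ Preper g y) {d : ℕ} (hd : 2 ≤ d) {C : ℝ}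
    (hC : ∀ p ∈ OS f g x y, ∀ q ∈ OS f g x y, ∀ r ∈ OS f g x y, p.1 < q.1 → q.1 < r.1 →
      (d : ℝ) ^ p.1 ≤ C * r.1) (i j k l : ℕ) (hr : ∀ r : ℕ, (i + k * r, j + l * r) ∈ OS f g x y) :
    k = 0 ∧ l = 0 := by
  have hd' : (2 : ℝ) ≤ d := by exact_mod_cast hd
  have hk : k = 0 := by
    by_contra hk
    have hk1 : 1 ≤ k := Nat.one_le_iff_ne_zero.2 hk
    -- the gap principle for the points with parameters `r, r + 1, r + 2`
    have h1 : ∀ r : ℕ, (2 : ℝ) ^ r ≤ C * (i + k * (r + 2)) := by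
      intro r
      have h2 := hC _ (hr r) _ (hr (r + 1)) _ (hr (r + 2))
        (by show i + k * r < i + k * (r + 1); nlinarith)
        (by show i + k * (r + 1) < i + k * (r + 2); nlinarith)
      simp only at h2
      push_cast at h2
      refine le_trans ?_ h2
      calc (2 : ℝ) ^ r ≤ (2 : ℝ) ^ (i + k * r) :=
            pow_le_pow_right₀ (by norm_num) (by nlinarith)
        _ ≤ _ := pow_le_pow_left₀ (by norm_num) hd' _
    -- exponential against linear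
    have h3 : Filter.Tendsto (fun r : ℕ => C * ((i : ℝ) + k * (r + 2)) / 2 ^ r) Filter.atTop
        (nhds 0) := by
      have t0 : Filter.Tendsto (fun r : ℕ => (1 : ℝ) / 2 ^ r) Filter.atTop (nhds 0) := by
        have := tendsto_pow_const_div_const_pow_of_one_lt 0 (r := (2 : ℝ)) (by norm_num)
        simpa using this
      have t1 : Filter.Tendsto (fun r : ℕ => (r : ℝ) / 2 ^ r) Filter.atTop (nhds 0) := by
        have := tendsto_pow_const_div_const_pow_of_one_lt 1 (r := (2 : ℝ)) (by norm_num)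
        simpa using this
      have t2 := (t0.const_mul (C * (i + 2 * k))).add (t1.const_mul (C * k))
      rw [mul_zero, mul_zero, add_zero] at t2
      refine t2.congr fun r => ?_
      ring
    have h4 := (h3.eventually (gt_mem_nhds (show (0 : ℝ) < 1 by norm_num))).exists
    obtain ⟨r, h5⟩ := h4
    rw [div_lt_one (by positivity)] at h5
    exact absurd (h1 r) (not_le.2 h5)
  refine ⟨hk, ?_⟩
  subst hk
  by_contra hl
  have h1 := os_fst_inj hy (hr 0) (hr 1) (by simp)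
  have h2 := congrArg Prod.snd h1
  simp only at h2
  omega

theorem os_rev (hN : ∀ B : ℝ, {x : T | h x ≤ B}.Finite) {f g : T → T} {d e : ℕ} (hd : 2 ≤ d)
    (he : 2 ≤ e) (hind : MulIndep d e) {c c' : ℝ} (hf : ∀ x, |h (f x) - d * h x| ≤ c)
    (hg : ∀ x, |h (g x) - e * h x| ≤ c') {x y : T} (hx : ¬ Preper f x)
    (hfg : CommonMult f g) : (OS f g x y).Subsingleton := by
  have hd' : (2 : ℝ) ≤ d := by exact_mod_cast hd
  have he' : (2 : ℝ) ≤ e := by exact_mod_cast he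
  obtain ⟨A, hA⟩ := exists_can hd' hf x
  obtain ⟨B, hB⟩ := exists_can he' hg y
  have hA0 : 0 < A := can_pos hN (by linarith) ⟨c, hA⟩ hx
  have key : ∀ p ∈ OS f g x y, (d : ℝ) ^ p.1 * A = (e : ℝ) ^ p.2 * B := by
    intro p hp
    have h1 : f^[p.1] x = g^[p.2] y := hp
    have h2 := (IsCan.iter (h := h) ⟨c, hA⟩ p.1)
    have h3 := (IsCan.iter (h := h) ⟨c', hB⟩ p.2)
    rw [h1] at h2
    exact can_rev hN hd' he' hf hg hfg hx h2 h3
  have main : ∀ p ∈ OS f g x y, ∀ q ∈ OS f g x y, p.1 < q.1 → False := by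
    intro p hp q hq hlt
    have h1 := key p hp
    have h2 := key q hq
    obtain ⟨u, hu⟩ := Nat.exists_eq_add_of_lt hlt
    have hB0 : 0 < B := by
      have : 0 < (e : ℝ) ^ p.2 * B := by
        rw [← h1]
        positivity
      exact (pos_iff_pos_of_mul_pos this).1 (by positivity)
    have h3 : (e : ℝ) ^ p.2 < (e : ℝ) ^ q.2 := by
      have h4 : (d : ℝ) ^ p.1 < (d : ℝ) ^ q.1 := pow_lt_pow_right₀ (by linarith) hlt
      have h5 : (e : ℝ) ^ p.2 * B < (e : ℝ) ^ q.2 * B := by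
        rw [← h1, ← h2]
        exact mul_lt_mul_of_pos_right h4 hA0
      exact lt_of_mul_lt_mul_right h5 hB0.le
    have h4 : p.2 < q.2 := (pow_lt_pow_iff_right₀ (by linarith)).1 h3
    obtain ⟨v, hv⟩ := Nat.exists_eq_add_of_lt h4
    rw [hu, hv] at h2
    have h5 : (d : ℝ) ^ (u + 1) = (e : ℝ) ^ (v + 1) := by
      have e1 : (d : ℝ) ^ (p.1 + u + 1) * A = (d : ℝ) ^ (u + 1) * ((d : ℝ) ^ p.1 * A) := by ring
      have e2 : (e : ℝ) ^ (p.2 + v + 1) * B = (e : ℝ) ^ (v + 1) * ((e : ℝ) ^ p.2 * B) := by ring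
      rw [e1, e2, ← h1] at h2
      exact mul_right_cancel₀ (by positivity : (d : ℝ) ^ p.1 * A ≠ 0) h2
    have h6 : d ^ (u + 1) = e ^ (v + 1) := by exact_mod_cast h5
    have := (hind _ _ h6).1
    omega
  intro p hp q hq
  rcases lt_trichotomy p.1 q.1 with h1 | h1 | h1
  · exact (main p hp q hq h1).elim
  · refine Prod.ext h1 ?_
    have h2 := key p hp
    have h3 := key q hq
    rw [h1, h3] at h2
    have hB0 : B ≠ 0 := by
      rintro rfl
      rw [mul_zero] at h3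
      have : 0 < (d : ℝ) ^ q.1 * A := by positivity
      exact this.ne' h3
    have h4 : (e : ℝ) ^ q.2 = (e : ℝ) ^ p.2 := mul_right_cancel₀ hB0 h2
    exact (pow_right_injective₀ (by linarith) (by linarith) h4).symm
  · exact (main q hq p hp h1).elim

end Pool.Agent.Lib.MP_c7b5d6_nt
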